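import Pool.Agent.Y6.G.Stm

/-!
# Project EP: the envelope
-/

set_option autoImplicit false

namespace Pool.Agent.Y236.EP.ENV

open Pool.Agent.Y6.G
open Pool.Agent.Y6.M (εc Uth)

/-! ### The lengths -/

theorem al_zero : αM 0 = 10 ^ 100 := by
  show ((10 ^ 100 : ℕ) : ℝ) = 10 ^ 100
  rw [Nat.cast_pow, Nat.cast_ofNat]

theorem al_succ (n : ℕ) : αM (n + 1) = αM n ^ 61 := by
  show ((al n ^ 61 : ℕ) : ℝ) = (al n : ℝ) ^ 61
  rw [Nat.cast_pow]

theorem al_big (n : ℕ) : (1024 : ℝ) ≤ αM n := by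
  induction n with
  | zero =>
    rw [al_zero]
    norm_num
  | succ n ih =>
    rw [al_succ]
    exact ih.trans (le_self_pow₀ (by linarith) (by omega))

theorem al_one (n : ℕ) : (1 : ℝ) ≤ αM n := by linarith [al_big n]

theorem al_pos' (n : ℕ) : (0 : ℝ) < αM n := by linarith [al_big n]

theorem al_cube (n : ℕ) : αM n ^ 3 ≤ αM (n + 1) := by
  rw [al_succ]
  exact pow_le_pow_right₀ (al_one n) (by omega)

theorem al_32 (n : ℕ) : (32 * αM n) ^ 2 ≤ αM (n + 1) := by
  refine le_trans ?_ (al_cube n)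
  have h1 := al_big n
  have h2 : 0 ≤ αM n ^ 2 := by positivity
  nlinarith

theorem al_lt (n : ℕ) : 32 * αM n < αM (n + 1) := by
  refine lt_of_lt_of_le ?_ (al_32 n)
  have h1 := al_big n
  nlinarith

theorem al_mono : Monotone αM := by
  refine monotone_nat_of_le_succ fun n => ?_
  have h1 := al_lt n
  have h2 := al_pos' n
  linarith

theorem al_two (n : ℕ) : (2 : ℝ) ^ (2 * n + 4) ≤ αM n := by
  induction n with
  | zero =>
    refine le_trans ?_ (al_big 0)
    norm_num
  | succ n ih =>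
    have h1 := al_lt n
    have h2 : (2 : ℝ) ^ (2 * (n + 1) + 4) = 4 * 2 ^ (2 * n + 4) := by
      rw [show 2 * (n + 1) + 4 = (2 * n + 4) + 2 by omega, pow_add]
      ring
    have h3 := al_pos' n
    rw [h2]
    linarith

theorem al_unb (r : ℝ) : ∃ n, r ≤ 4 * αM n := by
  obtain ⟨n, hn⟩ := exists_nat_ge r
  refine ⟨n, hn.trans ?_⟩
  have h1 : (n : ℝ) ≤ 2 ^ n := by exact_mod_cast (Nat.lt_two_pow_self (n := n)).le
  have h2 : (2 : ℝ) ^ n ≤ 2 ^ (2 * n + 4) := pow_le_pow_right₀ (by norm_num) (by omega)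
  have h3 := al_two n
  have h4 := al_pos' n
  linarith

/-! ### The index -/

theorem idx_spec (r : ℝ) : r ≤ 4 * αM (idx r) := Nat.sInf_mem (al_unb r)

theorem idx_le {r : ℝ} {n : ℕ} (h : r ≤ 4 * αM n) : idx r ≤ n := Nat.sInf_le h

theorem lt_of_lt_idx {r : ℝ} {n : ℕ} (h : n < idx r) : 4 * αM n < r := by
  by_contra hn
  exact absurd (idx_le (not_lt.1 hn)) (by omega)

theorem idx_mono {r s : ℝ} (h : r ≤ s) : idx r ≤ idx s := idx_le (h.trans (idx_spec s))

theorem idx_eq {r : ℝ} {n : ℕ} (h : 4 * αM n < r) (h' : r ≤ 4 * αM (n + 1)) :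
    idx r = n + 1 := by
  refine le_antisymm (idx_le h') ?_
  by_contra hn
  have h1 : idx r ≤ n := by omega
  have h2 := idx_spec r
  have h3 := al_mono h1
  linarith

theorem env_zero (M : ℕ → ℝ) {r : ℝ} (h : idx r = 0) : env M r = 1 := by
  unfold env
  rw [h]

theorem env_succ (M : ℕ → ℝ) {r : ℝ} {n : ℕ} (h : idx r = n + 1) :
    env M r = max (M (n + 1)) (M n * (4 * αM n / r) ^ (2 * n + 4)) := by
  unfold env
  rw [h]

/-! ### Admissible sizes -/

theorem M_pos {M : ℕ → ℝ} (hM : Adq M) (n : ℕ) : 0 < M n := by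
  refine lt_of_lt_of_le ?_ (hM.lo n)
  unfold εc
  have := al_pos' n
  positivity

theorem M_step {M : ℕ → ℝ} (hM : Adq M) (n : ℕ) : M (n + 1) ≤ M n := by
  refine le_trans ?_ (hM.rel n)
  exact le_mul_of_one_le_left (M_pos hM _).le (one_le_pow₀ (al_one n))

theorem M_anti {M : ℕ → ℝ} (hM : Adq M) : Antitone M := antitone_nat_of_succ_le (M_step hM)

theorem M_le {M : ℕ → ℝ} (hM : Adq M) (n : ℕ) : M n ≤ 1 := by
  rw [← hM.zero]
  exact M_anti hM (Nat.zero_le n)

/-! ### The envelope -/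

theorem ratio_nonneg {r : ℝ} (hr : 0 < r) (n : ℕ) : 0 ≤ 4 * αM n / r := by
  have := al_pos' n
  positivity

theorem ratio_le {r : ℝ} {n : ℕ} (h : n < idx r) : 4 * αM n / r ≤ 1 := by
  have h1 := lt_of_lt_idx h
  have h2 := al_pos' n
  rw [div_le_one (by linarith)]
  exact h1.le

theorem r_pos {r : ℝ} {n : ℕ} (h : n < idx r) : 0 < r := by
  have h1 := lt_of_lt_idx h
  have h2 := al_pos' n
  linarith

theorem env_le_of_lt {M : ℕ → ℝ} (hM : Adq M) {r : ℝ} {n : ℕ} (h : n < idx r) :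
    env M r ≤ M n := by
  obtain ⟨k, hk⟩ : ∃ k, idx r = k + 1 := ⟨idx r - 1, by omega⟩
  rw [env_succ M hk]
  have hkn : n ≤ k := by omega
  refine le_trans ?_ (M_anti hM hkn)
  refine max_le (M_step hM k) ?_
  have h1 : (4 * αM k / r) ^ (2 * k + 4) ≤ 1 :=
    pow_le_one₀ (ratio_nonneg (r_pos h) k) (ratio_le (by omega))
  exact mul_le_of_le_one_right (M_pos hM k).le h1

theorem env_ge {M : ℕ → ℝ} (hM : Adq M) {r : ℝ} {n : ℕ} (h : r ≤ 4 * αM n) :
    M n ≤ env M r := by
  have h1 := idx_le h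
  rcases Nat.eq_zero_or_pos (idx r) with h0 | h0
  · rw [env_zero M h0]
    exact M_le hM n
  · obtain ⟨k, hk⟩ : ∃ k, idx r = k + 1 := ⟨idx r - 1, by omega⟩
    rw [env_succ M hk]
    exact le_trans (M_anti hM (by omega)) (le_max_left _ _)

theorem env_pos {M : ℕ → ℝ} (hM : Adq M) (r : ℝ) : 0 < env M r :=
  lt_of_lt_of_le (M_pos hM (idx r)) (env_ge hM (idx_spec r))

theorem env_le_one {M : ℕ → ℝ} (hM : Adq M) (r : ℝ) : env M r ≤ 1 := by
  rcases Nat.eq_zero_or_pos (idx r) with h0 | h0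
  · rw [env_zero M h0]
  · exact (env_le_of_lt hM h0).trans (M_le hM 0)

theorem env_anti {M : ℕ → ℝ} (hM : Adq M) {r s : ℝ} (hr : 0 < r) (hrs : r ≤ s) :
    env M s ≤ env M r := by
  rcases (idx_mono hrs).lt_or_eq with h | h
  · exact (env_le_of_lt hM h).trans (env_ge hM (idx_spec r))
  · rcases Nat.eq_zero_or_pos (idx r) with h0 | h0
    · rw [env_zero M h0, env_zero M (by omega)]
    · obtain ⟨k, hk⟩ : ∃ k, idx r = k + 1 := ⟨idx r - 1, by omega⟩
      rw [env_succ M hk, env_succ M (show idx s = k + 1 by omega)]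
      refine max_le_max le_rfl (mul_le_mul_of_nonneg_left ?_ (M_pos hM k).le)
      refine pow_le_pow_left₀ (ratio_nonneg (hr.trans_le hrs) k) ?_ _
      have := al_pos' k
      exact div_le_div_of_nonneg_left (by positivity) hr hrs

theorem env_zone {M : ℕ → ℝ} (hM : Adq M) {n : ℕ} {r : ℝ} (h1 : αM n ≤ 8 * r)
    (h2 : r ≤ 4 * αM n) : env M r = M n := by
  rcases n with _ | n
  · rw [env_zero M (Nat.le_zero.1 (idx_le h2)), hM.zero]
  · have h3 := al_lt n
    have h4 : 4 * αM n < r := by linarith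
    rw [env_succ M (idx_eq h4 h2)]
    refine max_eq_left ?_
    have hr : 0 < r := by linarith [al_pos' n]
    have hp := al_pos' (n + 1)
    have hp0 := al_pos' n
    have h5 : 4 * αM n / r ≤ 32 * αM n / αM (n + 1) := by
      rw [div_le_div_iff₀ hr hp]
      nlinarith
    have h6 : (4 * αM n / r) ^ (2 * n + 4) ≤ (32 * αM n / αM (n + 1)) ^ (2 * n + 4) :=
      pow_le_pow_left₀ (ratio_nonneg hr n) h5 _
    have h7 : (32 * αM n / αM (n + 1)) ^ (2 * n + 4) ≤ (αM (n + 1) ^ (n + 2))⁻¹ := by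
      rw [show 2 * n + 4 = 2 * (n + 2) by omega, pow_mul, ← inv_pow]
      refine pow_le_pow_left₀ (by positivity) ?_ _
      rw [div_pow, div_le_iff₀ (by positivity)]
      have h8 : (αM (n + 1))⁻¹ * αM (n + 1) ^ 2 = αM (n + 1) := by
        field_simp
      rw [h8]
      exact al_32 n
    have h9 := hM.lo (n + 1)
    unfold εc at h9
    calc M n * (4 * αM n / r) ^ (2 * n + 4) ≤ 1 * (4 * αM n / r) ^ (2 * n + 4) :=
          mul_le_mul_of_nonneg_right (M_le hM n) (pow_nonneg (ratio_nonneg hr n) _)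
      _ = (4 * αM n / r) ^ (2 * n + 4) := one_mul _
      _ ≤ (αM (n + 1) ^ (n + 2))⁻¹ := h6.trans h7
      _ ≤ M (n + 1) := h9

theorem env_half {M : ℕ → ℝ} (hM : Adq M) {r : ℝ} (hr : 1 ≤ r) :
    env M (r / 2) ≤ r * env M r := by
  have hr0 : 0 < r := by linarith
  rcases Nat.eq_zero_or_pos (idx r) with h0 | h0
  · rw [env_zero M h0, mul_one]
    exact (env_le_one hM _).trans hr
  · obtain ⟨n, hn⟩ : ∃ k, idx r = k + 1 := ⟨idx r - 1, by omega⟩
    have h1 : 4 * αM n < r := lt_of_lt_idx (by omega)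
    have h2 : r ≤ 4 * αM (n + 1) := by
      have := idx_spec r
      rwa [hn] at this
    have hp := al_pos' n
    have h2n := al_two n
    have hMn := M_pos hM n
    rcases le_or_gt (r / 2) (4 * αM n) with h3 | h3
    · rw [env_zone hM (n := n) (r := r / 2) (by linarith) h3, env_succ M hn]
      have h4 : M n * (1 / 2) ^ (2 * n + 4) ≤
          max (M (n + 1)) (M n * (4 * αM n / r) ^ (2 * n + 4)) := by
        refine le_trans ?_ (le_max_right _ _)
        refine mul_le_mul_of_nonneg_left (pow_le_pow_left₀ (by norm_num) ?_ _) hMn.le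
        rw [div_le_div_iff₀ (by norm_num) hr0]
        linarith
      have h5 : M n ≤ r * (M n * (1 / 2) ^ (2 * n + 4)) := by
        have h6 : (1 : ℝ) ≤ r * (1 / 2) ^ (2 * n + 4) := by
          rw [one_div, inv_pow, ← div_eq_mul_inv, le_div_iff₀ (by positivity), one_mul]
          linarith
        calc M n = M n * 1 := (mul_one _).symm
          _ ≤ M n * (r * (1 / 2) ^ (2 * n + 4)) := mul_le_mul_of_nonneg_left h6 hMn.le
          _ = r * (M n * (1 / 2) ^ (2 * n + 4)) := by ring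
      exact h5.trans (mul_le_mul_of_nonneg_left h4 hr0.le)
    · rw [env_succ M (idx_eq h3 (by linarith)), env_succ M hn]
      refine max_le ?_ ?_
      · calc M (n + 1) = 1 * M (n + 1) := (one_mul _).symm
          _ ≤ r * M (n + 1) := mul_le_mul_of_nonneg_right hr (M_pos hM _).le
          _ ≤ _ := mul_le_mul_of_nonneg_left (le_max_left _ _) hr0.le
      · have h4 : (4 * αM n / (r / 2)) ^ (2 * n + 4) =
            2 ^ (2 * n + 4) * (4 * αM n / r) ^ (2 * n + 4) := by
          rw [← mul_pow]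
          congr 1
          field_simp
        rw [h4]
        have h5 : 0 ≤ (4 * αM n / r) ^ (2 * n + 4) := pow_nonneg (ratio_nonneg hr0 n) _
        calc M n * (2 ^ (2 * n + 4) * (4 * αM n / r) ^ (2 * n + 4))
            = 2 ^ (2 * n + 4) * (M n * (4 * αM n / r) ^ (2 * n + 4)) := by ring
          _ ≤ r * (M n * (4 * αM n / r) ^ (2 * n + 4)) :=
              mul_le_mul_of_nonneg_right (by linarith) (mul_nonneg hMn.le h5)
          _ ≤ _ := mul_le_mul_of_nonneg_left (le_max_right _ _) hr0.le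

theorem env_le_env {M M' : ℕ → ℝ} (hM : ∀ n, M n ≤ M' n) {r : ℝ}
    (hr : 0 < r) : env M r ≤ env M' r := by
  rcases Nat.eq_zero_or_pos (idx r) with h0 | h0
  · rw [env_zero M h0, env_zero M' h0]
  · obtain ⟨n, hn⟩ : ∃ k, idx r = k + 1 := ⟨idx r - 1, by omega⟩
    rw [env_succ M hn, env_succ M' hn]
    exact max_le_max (hM _) (mul_le_mul_of_nonneg_right (hM _)
      (pow_nonneg (ratio_nonneg hr n) _))

theorem env_decay (k : ℕ) (C : ℝ) {M : ℕ → ℝ} (hM : Adq M) (hC : ∀ n, αM n ^ k * M n ≤ C)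
    {r : ℝ} (hr : 1 ≤ r) : r ^ k * env M r ≤ (4 * αM k) ^ k + 4 ^ k * C := by
  have hr0 : 0 < r := by linarith
  have hC0 : 0 ≤ C := by
    refine le_trans ?_ (hC 0)
    have h1 := al_pos' 0
    have h2 := M_pos hM 0
    positivity
  have hk := al_pos' k
  have hsmall : r ≤ 4 * αM k → r ^ k * env M r ≤ (4 * αM k) ^ k + 4 ^ k * C := by
    intro h
    calc r ^ k * env M r ≤ r ^ k * 1 :=
          mul_le_mul_of_nonneg_left (env_le_one hM r) (by positivity)
      _ = r ^ k := mul_one _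
      _ ≤ (4 * αM k) ^ k := pow_le_pow_left₀ hr0.le h k
      _ ≤ _ := by
        have : 0 ≤ 4 ^ k * C := by positivity
        linarith
  rcases Nat.eq_zero_or_pos (idx r) with h0 | h0
  · apply hsmall
    have h1 := idx_spec r
    rw [h0] at h1
    have h2 := al_mono (Nat.zero_le k)
    linarith
  · obtain ⟨n, hn⟩ : ∃ k, idx r = k + 1 := ⟨idx r - 1, by omega⟩
    have h1 : 4 * αM n < r := lt_of_lt_idx (by omega)
    have h2 : r ≤ 4 * αM (n + 1) := by
      have := idx_spec r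
      rwa [hn] at this
    by_cases hkn : n + 1 ≤ k
    · apply hsmall
      have h3 := al_mono hkn
      linarith
    · have hkn' : k ≤ 2 * n + 4 := by omega
      have h4 : env M r ≤ max (M (n + 1)) (M n * (4 * αM n / r) ^ k) := by
        rw [env_succ M hn]
        refine max_le_max le_rfl (mul_le_mul_of_nonneg_left ?_ (M_pos hM n).le)
        exact pow_le_pow_of_le_one (ratio_nonneg hr0 n) (ratio_le (by omega)) hkn'
      have h5 : r ^ k * max (M (n + 1)) (M n * (4 * αM n / r) ^ k) ≤ 4 ^ k * C := by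
        rw [mul_max_of_nonneg _ _ (by positivity)]
        refine max_le ?_ ?_
        · calc r ^ k * M (n + 1) ≤ (4 * αM (n + 1)) ^ k * M (n + 1) :=
                mul_le_mul_of_nonneg_right (pow_le_pow_left₀ hr0.le h2 k) (M_pos hM _).le
            _ = 4 ^ k * (αM (n + 1) ^ k * M (n + 1)) := by rw [mul_pow]; ring
            _ ≤ 4 ^ k * C := mul_le_mul_of_nonneg_left (hC _) (by positivity)
        · have h6 : r ^ k * (M n * (4 * αM n / r) ^ k) = 4 ^ k * (αM n ^ k * M n) := by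
            rw [div_pow, mul_pow]
            field_simp
          rw [h6]
          exact mul_le_mul_of_nonneg_left (hC _) (by positivity)
      have h7 : 0 ≤ (4 * αM k) ^ k := by positivity
      have h8 := mul_le_mul_of_nonneg_left h4 (show 0 ≤ r ^ k by positivity)
      linarith

theorem ratio_aux (K : ℕ) {c x y : ℝ} (hc : 0 ≤ c) (hK : 4 * (K : ℝ) ≤ x) (hx : 0 < x)
    (hxy : x ≤ y) (hy : y ≤ x + 1) : (c / x) ^ K ≤ 8 * (c / y) ^ K := by
  have hy0 : 0 < y := by linarith
  have h1 : (1 : ℝ) + (K : ℝ) * (x / y - 1) ≤ (1 + (x / y - 1)) ^ K := by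
    refine one_add_mul_le_pow ?_ K
    have : 0 ≤ x / y := by positivity
    linarith
  have h2 : -(1 / 4 : ℝ) ≤ (K : ℝ) * (x / y - 1) := by
    have h3 : x / y - 1 = (x - y) / y := by field_simp
    rw [h3, ← mul_div_assoc, le_div_iff₀ hy0]
    have hK0 : (0 : ℝ) ≤ K := Nat.cast_nonneg K
    nlinarith
  have h4 : (1 / 8 : ℝ) ≤ (x / y) ^ K := by
    rw [show 1 + (x / y - 1) = x / y by ring] at h1
    linarith
  have h5 : (c / y) ^ K = (c / x) ^ K * (x / y) ^ K := by
    rw [← mul_pow]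
    congr 1
    field_simp
  rw [h5]
  have h6 : 0 ≤ (c / x) ^ K := pow_nonneg (div_nonneg hc hx.le) _
  nlinarith

theorem env_shift {M : ℕ → ℝ} (hM : Adq M) {r s : ℝ} (hr : 1 ≤ r) (hrs : r ≤ s)
    (hs : s ≤ r + 1) : env M r ≤ 8 * env M s := by
  rcases Nat.eq_zero_or_pos (idx s) with h0 | h0
  · rw [env_zero M h0]
    linarith [env_le_one hM r]
  · obtain ⟨n, hn⟩ : ∃ k, idx s = k + 1 := ⟨idx s - 1, by omega⟩
    have h1 : 4 * αM n < s := lt_of_lt_idx (by omega)
    have h2 : s ≤ 4 * αM (n + 1) := by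
      have := idx_spec s
      rwa [hn] at this
    have hp := al_pos' n
    have hb := al_big n
    have hMn := M_pos hM n
    have hK : 4 * (((2 * n + 4 : ℕ)) : ℝ) ≤ 4 * αM n := by
      have h3 : (((2 * n + 4 : ℕ)) : ℝ) ≤ 2 ^ (2 * n + 4) := by
        exact_mod_cast (Nat.lt_two_pow_self (n := 2 * n + 4)).le
      have h4 := al_two n
      linarith
    rcases le_or_gt r (4 * αM n) with h3 | h3
    · rw [env_zone hM (n := n) (r := r) (by linarith) h3, env_succ M hn]
      have h4 := ratio_aux (2 * n + 4) (c := 4 * αM n) (x := 4 * αM n) (y := s) (by linarith) hK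
        (by linarith) h1.le (by linarith)
      rw [div_self (by positivity), one_pow] at h4
      calc M n = M n * 1 := (mul_one _).symm
        _ ≤ M n * (8 * (4 * αM n / s) ^ (2 * n + 4)) := mul_le_mul_of_nonneg_left h4 hMn.le
        _ = 8 * (M n * (4 * αM n / s) ^ (2 * n + 4)) := by ring
        _ ≤ _ := mul_le_mul_of_nonneg_left (le_max_right _ _) (by norm_num)
    · rw [env_succ M (idx_eq h3 (by linarith)), env_succ M hn]
      refine max_le ?_ ?_
      · have h4 : M (n + 1) ≤ max (M (n + 1)) (M n * (4 * αM n / s) ^ (2 * n + 4)) :=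
          le_max_left _ _
        have h5 := M_pos hM (n + 1)
        linarith
      · have h4 := ratio_aux (2 * n + 4) (c := 4 * αM n) (x := r) (y := s) (by linarith)
          (by linarith) (by linarith) hrs hs
        calc M n * (4 * αM n / r) ^ (2 * n + 4)
            ≤ M n * (8 * (4 * αM n / s) ^ (2 * n + 4)) := mul_le_mul_of_nonneg_left h4 hMn.le
          _ = 8 * (M n * (4 * αM n / s) ^ (2 * n + 4)) := by ring
          _ ≤ _ := mul_le_mul_of_nonneg_left (le_max_right _ _) (by norm_num)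

theorem t_ENV : Pool.Agent.Y6.G.S_ENV := by
  refine ⟨fun M hM => ⟨fun r s hr hrs => env_anti hM hr hrs, fun r hr => env_half hM hr,
    fun n r h1 h2 => env_zone hM h1 h2, fun n r _ h => env_ge hM h,
    fun r => ⟨env_pos hM r, env_le_one hM r⟩, fun r s h1 h2 h3 => env_shift hM h1 h2 h3⟩, ?_, ?_⟩
  · intro M M' _ _ h r hr
    exact env_le_env h hr
  · intro k C
    exact ⟨(4 * αM k) ^ k + 4 ^ k * C, fun M hM hC r hr => env_decay k C hM hC hr⟩

end Pool.Agent.Y236.EP.ENV
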